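import Pool.Agent.H72.BF.Targets

/-!
Modules SIE, BIN, RLI, DEI of the board bf_modules (Baker-Feldman theorem).
-/

open Polynomial Finset

namespace Pool.Agent.H54.BF

open Pool.Agent.H72.BF

section

attribute [local instance] Matrix.seminormedAddCommGroup

theorem sie : T_SIE := by
  intro U V _ _ a Y hY ha h2 hV
  set A : Matrix V U ℤ := Matrix.of a with hA
  have hlt : Fintype.card V < Fintype.card U := by omega
  obtain ⟨t, ht0, ht, htn⟩ := Int.Matrix.exists_ne_zero_int_vec_norm_le A hlt hV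
  refine ⟨t, ht0, fun v => congrFun ht v, fun u => ?_⟩
  have hAn : ‖A‖ ≤ Y := by
    rw [Matrix.norm_le_iff (by linarith)]
    intro v u
    rw [Int.norm_eq_abs]
    exact ha v u
  have hmax : max 1 ‖A‖ ≤ Y := max_le hY hAn
  have hU1 : (1 : ℝ) ≤ Fintype.card U := by exact_mod_cast (by omega : 1 ≤ Fintype.card U)
  have hbase : (1 : ℝ) ≤ Fintype.card U * max 1 ‖A‖ := by
    have := le_max_left 1 ‖A‖
    nlinarith
  have hexp : ((Fintype.card V : ℝ) / ((Fintype.card U : ℝ) - Fintype.card V)) ≤ 1 := by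
    have h3 : (2 : ℝ) * Fintype.card V ≤ Fintype.card U := by exact_mod_cast h2
    have h4 : (0 : ℝ) < Fintype.card V := by exact_mod_cast hV
    rw [div_le_one (by linarith)]
    linarith
  have h5 : |((t u : ℤ) : ℝ)| ≤ ‖t‖ := by
    rw [← Int.norm_eq_abs]
    exact norm_le_pi_norm t u
  calc |((t u : ℤ) : ℝ)| ≤ ‖t‖ := h5
    _ ≤ _ := htn
    _ ≤ (Fintype.card U * max 1 ‖A‖) ^ (1 : ℝ) := Real.rpow_le_rpow_of_exponent_le hbase hexp
    _ = Fintype.card U * max 1 ‖A‖ := Real.rpow_one _
    _ ≤ Fintype.card U * Y := by gcongr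

end

theorem binP_bound (h a : ℕ) (ρ : ℝ) (z : ℂ) (ha : a ≤ h) (hρ : 0 ≤ ρ)
    (hz : ‖z‖ ≤ (ρ + 1) * h) :
    ‖(binP a).eval z‖ ≤ Real.exp (h * (1 + Real.log (ρ + 2))) := by
  have h1 : (binP a).eval z = (a.factorial : ℂ)⁻¹ * ∏ i ∈ range a, (z - i) := by
    simp [binP, eval_mul, eval_prod]
  rw [h1, norm_mul, norm_inv, Complex.norm_natCast, norm_prod]
  have h2 : ∏ i ∈ range a, ‖z - (i : ℂ)‖ ≤ ∏ _i ∈ range a, ((ρ + 2) * h) := by
    refine Finset.prod_le_prod (fun _ _ => norm_nonneg _) fun i hi => ?_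
    have h3 : (i : ℝ) ≤ h := by
      have := Finset.mem_range.1 hi
      exact_mod_cast (by omega : i ≤ h)
    calc ‖z - (i : ℂ)‖ ≤ ‖z‖ + ‖(i : ℂ)‖ := norm_sub_le _ _
      _ ≤ (ρ + 1) * h + h := by
          rw [Complex.norm_natCast]
          linarith
      _ = (ρ + 2) * h := by ring
  rw [Finset.prod_const, Finset.card_range] at h2
  have hlog : 0 ≤ Real.log (ρ + 2) := Real.log_nonneg (by linarith)
  have h4 : (ρ + 2) ^ a ≤ Real.exp (h * Real.log (ρ + 2)) := by
    rw [← Real.exp_log (show (0 : ℝ) < ρ + 2 by linarith), ← Real.exp_nat_mul,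
      Real.exp_log (by linarith)]
    refine Real.exp_le_exp.2 ?_
    have h5 : (a : ℝ) ≤ h := by exact_mod_cast ha
    nlinarith
  calc (a.factorial : ℝ)⁻¹ * ∏ i ∈ range a, ‖z - (i : ℂ)‖
      ≤ (a.factorial : ℝ)⁻¹ * ((ρ + 2) * h) ^ a := by gcongr
    _ = (ρ + 2) ^ a * ((h : ℝ) ^ a / a.factorial) := by rw [mul_pow]; ring
    _ ≤ Real.exp (h * Real.log (ρ + 2)) * Real.exp h := by
        gcongr
        exact Real.pow_div_factorial_le_exp _ (by positivity) _
    _ = _ := by rw [← Real.exp_add]; congr 1; ring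

theorem iterDeriv_eval (P : ℂ[X]) (k : ℕ) :
    iteratedDeriv k (fun z => P.eval z) = fun z => (derivative^[k] P).eval z := by
  induction k with
  | zero => simp
  | succ k ih =>
    rw [iteratedDeriv_succ, ih, Function.iterate_succ_apply']
    funext z
    exact Polynomial.deriv _

theorem bin : T_BIN := by
  intro h μ l L0 k ρ z hh hμ hl hρ hz
  have hh1 : (1 : ℝ) ≤ h := by exact_mod_cast hh
  have hlog : 0 ≤ Real.log (ρ + 2) := Real.log_nonneg (by linarith)
  have h1 : ∀ w ∈ Metric.sphere z 1, ‖(RP h μ l).eval w‖ ≤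
      Real.exp (h * ((L0 + 1) * (1 + Real.log (ρ + 2)))) := by
    intro w hw
    have hw' : ‖w‖ ≤ (ρ + 1) * h := by
      have h2 : ‖w - z‖ = 1 := by rw [← dist_eq_norm]; exact hw
      calc ‖w‖ = ‖z + (w - z)‖ := by congr 1; ring
        _ ≤ ‖z‖ + ‖w - z‖ := norm_add_le _ _
        _ ≤ ρ * h + 1 := by rw [h2]; linarith
        _ ≤ (ρ + 1) * h := by linarith
    have e1 := binP_bound h μ ρ w hμ hρ hw'
    have e2 := binP_bound h h ρ w le_rfl hρ hw'
    rw [RP, eval_mul, eval_pow, norm_mul, norm_pow]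
    calc ‖(binP μ).eval w‖ * ‖(binP h).eval w‖ ^ l
        ≤ Real.exp (h * (1 + Real.log (ρ + 2))) *
          Real.exp (h * (1 + Real.log (ρ + 2))) ^ l := by gcongr
      _ = Real.exp ((1 + l) * (h * (1 + Real.log (ρ + 2)))) := by
          rw [← Real.exp_nat_mul, ← Real.exp_add]; congr 1; ring
      _ ≤ _ := by
          refine Real.exp_le_exp.2 ?_
          have h3 : (l : ℝ) ≤ L0 := by exact_mod_cast hl
          have h4 : 0 ≤ (h : ℝ) * (1 + Real.log (ρ + 2)) := by positivity
          nlinarith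
  have h2 := Complex.norm_iteratedDeriv_le_of_forall_mem_sphere_norm_le (c := z) (R := 1)
    (f := fun w => (RP h μ l).eval w) k one_pos
    ((Polynomial.differentiable (RP h μ l)).diffContOnCl) h1
  rw [iterDeriv_eval] at h2
  simpa using h2

theorem binP_natDegree (a : ℕ) : (binP a).natDegree = a ∧ binP a ≠ 0 := by
  have hm : (∏ i ∈ range a, (X - C (i : ℂ))).Monic :=
    monic_prod_of_monic _ _ fun i _ => monic_X_sub_C _
  have hf : ((a.factorial : ℂ)⁻¹) ≠ 0 := inv_ne_zero (Nat.cast_ne_zero.2 a.factorial_ne_zero)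
  constructor
  · rw [binP, natDegree_C_mul hf, natDegree_prod_of_monic _ _ fun i _ => monic_X_sub_C _]
    simp only [natDegree_X_sub_C, sum_const, card_range, smul_eq_mul, mul_one]
  · exact mul_ne_zero (C_ne_zero.2 hf) hm.ne_zero

theorem RP_ne_zero (h μ l : ℕ) : RP h μ l ≠ 0 :=
  mul_ne_zero (binP_natDegree μ).2 (pow_ne_zero _ (binP_natDegree h).2)

theorem RP_natDegree (h μ l : ℕ) : (RP h μ l).natDegree = μ + l * h := by
  rw [RP, natDegree_mul (binP_natDegree μ).2 (pow_ne_zero _ (binP_natDegree h).2), natDegree_pow,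
    (binP_natDegree μ).1, (binP_natDegree h).1]

theorem rli : T_RLI := by
  refine ⟨RP_natDegree, fun h L0 p hp => ?_⟩
  by_contra hne
  have hex : (univ.filter fun u : Fin h × Fin (L0 + 1) => p u ≠ 0).Nonempty := by
    obtain ⟨u, hu⟩ := Function.ne_iff.1 hne
    exact ⟨u, by simpa using hu⟩
  obtain ⟨u, hu, hmax⟩ := Finset.exists_max_image _
    (fun u : Fin h × Fin (L0 + 1) => (RP h u.1 u.2).natDegree) hex
  rw [mem_filter] at hu
  have hc := congrArg (fun q : ℂ[X] => q.coeff (RP h u.1 u.2).natDegree) hp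
  simp only [finsetSum_coeff, coeff_C_mul, coeff_zero] at hc
  rw [Finset.sum_eq_single_of_mem u (mem_univ u)] at hc
  · rcases mul_eq_zero.1 hc with h1 | h1
    · exact hu.2 (by exact_mod_cast h1)
    · rw [coeff_natDegree, leadingCoeff_eq_zero] at h1
      exact RP_ne_zero _ _ _ h1
  · intro v _ hvu
    by_cases hv : p v = 0
    · rw [hv]; simp
    · have h1 := hmax v (by simpa using hv)
      have h2 : (RP h v.1 v.2).natDegree ≠ (RP h u.1 u.2).natDegree := by
        rw [RP_natDegree, RP_natDegree]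
        intro heq
        apply hvu
        have hh : 0 < h := lt_of_le_of_lt (Nat.zero_le _) v.1.2
        have e1 := congrArg (fun x => x % h) heq
        have e2 := congrArg (fun x => x / h) heq
        simp only [Nat.add_mul_mod_self_right, Nat.mod_eq_of_lt v.1.2,
          Nat.mod_eq_of_lt u.1.2] at e1
        simp only [Nat.add_mul_div_right _ _ hh, Nat.div_eq_of_lt v.1.2,
          Nat.div_eq_of_lt u.1.2, zero_add] at e2
        exact Prod.ext (Fin.ext e1) (Fin.ext e2)
      rw [coeff_eq_zero_of_natDegree_lt (by omega), mul_zero]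

theorem dei (hGFS : T_GFS) : T_DEI := by
  intro n τ b0 T G x P hyp m hm
  have key : ∀ a : ℕ, a ≤ τ →
      ∑ t ∈ G, C (x t 0 ^ a * ∏ j : Fin n, x t j.succ ^ m j.succ) * P t = 0 := by
    intro a
    induction a using Nat.strong_induction_on with
    | _ a ih =>
      intro ha
      have h1 := hyp (Fin.cons a fun j => m j.succ) (by
        intro j
        refine Fin.cases ?_ (fun j => ?_) j
        · simpa using ha
        · simpa using hm j.succ)
      simp only [Fin.cons_zero, Fin.cons_succ] at h1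
      have h2 : ∀ t ∈ G, Gf b0 (x t 0) (P t) a * C (∏ j : Fin n, x t j.succ ^ m j.succ) =
          ∑ k ∈ range (a + 1), C ((a.choose k : ℂ) * b0 ^ k) *
            derivative^[k] (C (x t 0 ^ (a - k) * ∏ j : Fin n, x t j.succ ^ m j.succ) * P t) := by
        intro t _
        rw [hGFS, Finset.sum_mul]
        refine Finset.sum_congr rfl fun k _ => ?_
        rw [iterate_derivative_C_mul]
        simp only [C_mul]
        ring
      rw [Finset.sum_congr rfl h2, Finset.sum_comm] at h1
      have h3 : ∀ k ∈ range (a + 1), ∑ t ∈ G, C ((a.choose k : ℂ) * b0 ^ k) *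
            derivative^[k] (C (x t 0 ^ (a - k) * ∏ j : Fin n, x t j.succ ^ m j.succ) * P t) =
          C ((a.choose k : ℂ) * b0 ^ k) * derivative^[k] (∑ t ∈ G,
            C (x t 0 ^ (a - k) * ∏ j : Fin n, x t j.succ ^ m j.succ) * P t) := by
        intro k _
        rw [← Finset.mul_sum, iterate_derivative_sum]
      rw [Finset.sum_congr rfl h3, Finset.sum_eq_single_of_mem 0 (by simp)] at h1
      · simpa using h1
      · intro k hk hk0
        rw [Finset.mem_range] at hk
        rw [ih (a - k) (by omega) (by omega)]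
        simp
  have h1 := key (m 0) (hm 0)
  refine Eq.trans (Finset.sum_congr rfl fun t _ => ?_) h1
  rw [Fin.prod_univ_succ]

end Pool.Agent.H54.BF
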