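import Pool.Agent.H72.BF.Targets

/-!
Modules ROOT, ALG, SIE of the board bf_modules (Baker-Feldman theorem).
-/

open Polynomial Finset

namespace Pool.Agent.H54.BF

open Pool.Agent.H72.BF

theorem root_aux (δ : ℕ) (A : ℝ) (x : ℂ) (hA : 1 ≤ A) (h : AlgB δ A x) : ‖x‖ ≤ 1 + A := by
  obtain ⟨p, hp, hd, hc, h0⟩ := h
  set q : ℂ[X] := p.map (Int.castRingHom ℂ) with hq
  have hinj : Function.Injective (Int.castRingHom ℂ) := Int.cast_injective
  have hq0 : q ≠ 0 := (Polynomial.map_ne_zero_iff hinj).2 hp
  have hroot : q.IsRoot x := by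
    rw [Polynomial.IsRoot.def, hq, Polynomial.eval_map]
    exact h0
  have h1 := Polynomial.IsRoot.norm_lt_cauchyBound hq0 hroot
  set A' : NNReal := ⟨A, by linarith⟩ with hA'
  have h2 : q.cauchyBound ≤ A' + 1 := by
    rw [Polynomial.cauchyBound]
    gcongr
    have h3 : (1 : NNReal) ≤ ‖q.leadingCoeff‖₊ := by
      rw [hq, Polynomial.leadingCoeff_map_of_injective hinj, ← NNReal.coe_le_coe]
      simp only [coe_nnnorm, NNReal.coe_one, eq_intCast]
      have h4 : p.leadingCoeff ≠ 0 := Polynomial.leadingCoeff_ne_zero.2 hp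
      rw [Complex.norm_intCast]
      exact_mod_cast Int.one_le_abs h4
    refine div_le_of_le_mul₀ zero_le zero_le ?_
    refine le_trans ?_ (le_mul_of_one_le_right zero_le h3)
    refine Finset.sup_le fun i _ => ?_
    rw [← NNReal.coe_le_coe]
    change ‖q.coeff i‖ ≤ A
    rw [hq, Polynomial.coeff_map]
    simp only [eq_intCast, Complex.norm_intCast]
    exact hc i
  have h3 : ‖x‖₊ ≤ A' + 1 := h1.le.trans h2
  rw [← NNReal.coe_le_coe] at h3
  have h4 : ‖x‖ ≤ A + 1 := h3
  linarith

theorem root : T_ROOT := by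
  intro δ A x hA h
  refine ⟨root_aux δ A x hA h, fun hx => ?_⟩
  rw [← norm_inv]
  refine root_aux δ A x⁻¹ hA ?_
  obtain ⟨p, hp, hd, hc, h0⟩ := h
  refine ⟨p.reverse, Polynomial.reverse_eq_zero.not.2 hp, (reverse_natDegree_le p).trans hd,
    fun i => ?_, ?_⟩
  · rw [coeff_reverse]
    exact hc _
  · let _ : Invertible x := invertibleOfNonzero hx
    have := (eval₂_reverse_eq_zero_iff (algebraMap ℤ ℂ) x p).2 h0
    rw [invOf_eq_inv] at this
    exact this

theorem alg : T_ALG := by
  intro δ A x hδ hA h
  obtain ⟨p, hp, hd, hc, h0⟩ := h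
  have hpd : 1 ≤ p.natDegree := by
    by_contra hcon
    have h1 : p.natDegree = 0 := by omega
    rw [Polynomial.eq_C_of_natDegree_eq_zero h1] at h0 hp
    rw [aeval_C] at h0
    have h2 : p.coeff 0 = 0 := by
      have : ((p.coeff 0 : ℤ) : ℂ) = 0 := by simpa using h0
      exact_mod_cast this
    rw [h2] at hp
    simp at hp
  set b := p.leadingCoeff with hb
  have hb0 : b ≠ 0 := Polynomial.leadingCoeff_ne_zero.2 hp
  have hbA : |(b : ℝ)| ≤ A := hc _
  refine ⟨b, hb0, hbA, X ^ (δ - p.natDegree) * p.integralNormalization,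
    (monic_X_pow _).mul (monic_integralNormalization hp), ?_, ?_, ?_⟩
  · rw [(monic_X_pow _).natDegree_mul (monic_integralNormalization hp), natDegree_X_pow,
      natDegree_integralNormalization]
    omega
  · have h1 : ∀ i, |(p.integralNormalization.coeff i : ℝ)| ≤ A ^ δ := by
      intro i
      have hA1 : (1 : ℝ) ≤ A ^ δ := one_le_pow₀ hA
      by_cases hi : i = p.natDegree
      · rw [hi, integralNormalization_coeff_natDegree hp]
        simpa using hA1
      · rw [integralNormalization_coeff_ne_natDegree hi]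
        push_cast
        rw [abs_mul, abs_pow]
        by_cases hi2 : p.natDegree < i
        · rw [Polynomial.coeff_eq_zero_of_natDegree_lt hi2]
          simp only [Int.cast_zero, abs_zero, zero_mul]
          positivity
        · calc |(p.coeff i : ℝ)| * |(b : ℝ)| ^ (p.natDegree - 1 - i)
              ≤ A * A ^ (p.natDegree - 1 - i) := by
                gcongr
                exact hc i
            _ = A ^ (p.natDegree - 1 - i + 1) := by ring
            _ ≤ A ^ δ := pow_le_pow_right₀ hA (by omega)
    intro i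
    rw [Polynomial.coeff_X_pow_mul']
    split_ifs
    · exact h1 _
    · simp only [Int.cast_zero, abs_zero]
      positivity
  · rw [map_mul]
    have h1 : aeval ((algebraMap ℤ ℂ) p.leadingCoeff * x) p.integralNormalization = 0 :=
      integralNormalization_aeval_eq_zero h0 (by
        intro z hz
        rw [eq_intCast] at hz
        exact_mod_cast hz)
    have h2 : (algebraMap ℤ ℂ) p.leadingCoeff = (b : ℂ) := by simp [hb]
    rw [h2] at h1
    rw [h1, mul_zero]

end Pool.Agent.H54.BF
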